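import Pool.Agent.H.MP_29211c_nt.A

namespace Pool.Agent.Results.MP_29211c_nt.Q1

open NumberField Pool.Agent.H.MP_4f0cf1_nt Pool.Agent.H.MP_e449c6_nt Pool.Agent.H.MP_29211c_nt

/-- The determinant with `j + k`, for `0 ≤ j, k ≤ (p - 3) / 2`. -/
noncomputable def D (p : ℕ) [Fact p.Prime] (x y z w : ℂ) : ℂ :=
  (Matrix.of fun j k : Fin ((p - 1) / 2) => x + (legendreSym p ((j : ℕ) + (k : ℕ)) : ℂ) +
    (legendreSym p (j : ℕ) : ℂ) * y + (legendreSym p (k : ℕ) : ℂ) * z +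
    (legendreSym p ((j : ℕ) * (k : ℕ)) : ℂ) * w).det

theorem result (p : ℕ) [Fact p.Prime] (hp : 3 < p) :
    (p % 4 = 1 → ∀ (K : Type) [Field K] [NumberField K], Module.finrank ℚ K = 2 →
      ∀ s : K, s ^ 2 = p → ∀ (φ : K →+* ℝ) (ε : (𝓞 K)ˣ), 1 < φ ε →
      (∀ η : (𝓞 K)ˣ, 1 < φ η → φ ε ≤ φ η) → ∃ a b : ℚ,
        φ ε ^ classNumber K = a + b * √p ∧ ∀ x y z w : ℂ, D p x y z w =
          legendreSym p 2 * 2 ^ ((p - 3) / 2) *
            ((p * b - 2 * a) * x + (a - 2 * b) * (w * x - (y + 1) * (z + 1)))) ∧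
    (p % 4 = 3 → ∀ x y z w : ℂ,
      D p x y z w = 2 ^ ((p - 3) / 2) * (w * x - (y + 1) * (z + 1) - 2 * x)) := by
  have ho := (Fact.out : p.Prime).eq_two_or_odd.resolve_left (by omega)
  obtain ⟨m, h1⟩ : ∃ m, p = 2 * (m + 1) + 1 := ⟨(p - 3) / 2, by omega⟩
  unfold D
  rw [show (p - 1) / 2 = m + 1 by omega, show (p - 3) / 2 = m by omega]
  simp only [c_leg, Int.cast_add, Int.cast_mul, Int.cast_natCast, c_mul, Int.cast_ofNat]
  refine ⟨fun h K _ _ hK s hs φ ε e1 e2 => ?_, three h1 hp⟩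
  obtain ⟨a, b, a1, a2⟩ := one h1 h
  refine ⟨a, b, ?_, a2⟩
  have h5 : (0 : ℝ) < √p := Real.sqrt_pos.2 (Nat.cast_pos.2 (by omega))
  rw [Pr_one h1 h hK hs φ ε e1 e2, tau, if_pos h, one_mul] at a1
  have h2 : √p * φ ε ^ classNumber K = (p : ℝ) * b + a * √p := by exact_mod_cast a1
  apply mul_left_cancel₀ h5.ne'
  linear_combination h2 - b * Real.mul_self_sqrt (Nat.cast_nonneg p)

end Pool.Agent.Results.MP_29211c_nt.Q1
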